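import Pool.Agent.H7.KQ.Stmts

/-!
# The Turán graph with `Δ + a` vertices (row TUR)
-/

set_option autoImplicit false

open Finset

namespace Pool.KQ

open Pool.Agent.H23.KT Pool.Agent.H46.KW

namespace TURh

/-- The `j`-th vertex of the class of `i`. -/
def cw (R a r : ℕ) (i : ℕ) (hi : i < R) (j : ℕ) (hj : j < a) : Fin (R * a + r) :=
  ⟨i + R * j, by
    have : R * (j + 1) ≤ R * a := Nat.mul_le_mul_left _ hj
    rw [mul_add, mul_one] at this
    omega⟩

lemma deg (R a r : ℕ) (v : Fin ((R + 1) * a + r)) :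
    ((SimpleGraph.turanGraph ((R + 1) * a + r) (R + 1)).neighborSet v).ncard ≤ R * a + r := by
  classical
  set I : Finset (Fin ((R + 1) * a + r)) := (univ : Finset (Fin a)).image
    (fun j => cw (R + 1) a r (v.1 % (R + 1)) (Nat.mod_lt _ (by omega)) j.1 j.2) with hI
  have hIc : I.card = a := by
    rw [hI, card_image_of_injective, card_univ, Fintype.card_fin]
    intro j j' h
    have h1 := congrArg Fin.val h
    simp only [cw] at h1
    have h2 : (R + 1) * j.1 = (R + 1) * j'.1 := by omega
    exact Fin.ext (Nat.eq_of_mul_eq_mul_left (by omega) h2)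
  have h1 : (SimpleGraph.turanGraph ((R + 1) * a + r) (R + 1)).neighborSet v
      ⊆ ((univ \ I : Finset (Fin ((R + 1) * a + r))) : Set (Fin ((R + 1) * a + r))) := by
    intro w hw
    rw [SimpleGraph.mem_neighborSet] at hw
    have hw' : v.1 % (R + 1) ≠ w.1 % (R + 1) := hw
    rw [mem_coe, mem_sdiff]
    refine ⟨mem_univ _, ?_⟩
    intro h
    rw [hI, mem_image] at h
    obtain ⟨j, _, rfl⟩ := h
    apply hw'
    simp only [cw]
    rw [Nat.add_mul_mod_self_left, Nat.mod_mod]
  have h2 := Set.ncard_le_ncard h1 (finite_toSet _)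
  rw [Set.ncard_coe_finset] at h2
  have h3 := card_sdiff_add_card_eq_card (subset_univ I)
  rw [hIc, card_univ, Fintype.card_fin] at h3
  have h4 : (R + 1) * a = R * a + a := by ring
  omega

lemma lower (R r a : ℕ) (hr : r ≤ R + 1) :
    a ^ (R + 1 - r) * (a + 1) ^ r ≤ {s : Finset (Fin ((R + 1) * a + r)) |
    (SimpleGraph.turanGraph ((R + 1) * a + r) (R + 1)).IsNClique (R + 1) s}.ncard := by
  classical
  rcases Nat.eq_zero_or_pos ((R + 1) * a + r) with h0 | hpos
  · -- then `r = 0` and `a = 0`
    have hr0 : r = 0 := by omega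
    have ha0 : a = 0 := by
      rcases Nat.eq_zero_or_pos a with h | h
      · exact h
      · have : 0 < (R + 1) * a := Nat.mul_pos (by omega) h
        omega
    subst hr0 ha0
    rw [Nat.sub_zero, zero_pow (by omega), zero_mul]
    exact Nat.zero_le _
  haveI : NeZero ((R + 1) * a + r) := ⟨by omega⟩
  set A : Fin (R + 1) → Finset ℕ := fun i => if i.1 < r then range (a + 1) else range a with hA
  have hAc : (Fintype.piFinset A).card = a ^ (R + 1 - r) * (a + 1) ^ r := by
    rw [Fintype.card_piFinset]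
    have e1 : ∀ i : Fin (R + 1), (A i).card = (fun k : ℕ => if k < r then a + 1 else a) i.1 := by
      intro i
      simp only [hA]
      split_ifs <;> rw [card_range]
    rw [prod_congr rfl (fun i _ => e1 i),
      Fin.prod_univ_eq_prod_range (fun k : ℕ => if k < r then a + 1 else a) (R + 1)]
    obtain ⟨k, hk⟩ : ∃ k, R + 1 = r + k := ⟨R + 1 - r, by omega⟩
    rw [hk, prod_range_add]
    have e2 : ∏ x ∈ range r, (if x < r then a + 1 else a) = (a + 1) ^ r := by
      rw [prod_congr rfl (fun x hx => if_pos (mem_range.1 hx)), prod_const, card_range]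
    have e3 : ∏ x ∈ range k, (if r + x < r then a + 1 else a) = a ^ k := by
      rw [prod_congr rfl (fun x _ => if_neg (show ¬ r + x < r by omega)), prod_const, card_range]
    rw [e2, e3, show r + k - r = k by omega]
    ring
  have hlt : ∀ g ∈ Fintype.piFinset A, ∀ i : Fin (R + 1), i.1 + (R + 1) * g i < (R + 1) * a + r := by
    intro g hg i
    rw [Fintype.mem_piFinset] at hg
    have h1 := hg i
    by_cases hi : i.1 < r
    · simp only [hA, hi, if_true, mem_range] at h1
      have h2 : (R + 1) * g i ≤ (R + 1) * a := Nat.mul_le_mul_left _ (by omega)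
      omega
    · simp only [hA, hi, if_false, mem_range] at h1
      have h2 : (R + 1) * (g i + 1) ≤ (R + 1) * a := Nat.mul_le_mul_left _ (by omega)
      have h3 := i.2
      rw [mul_add, mul_one] at h2
      omega
  set F : (Fin (R + 1) → ℕ) → Fin (R + 1) → Fin ((R + 1) * a + r) := fun g i =>
    Fin.ofNat _ (i.1 + (R + 1) * g i) with hF
  have hFv : ∀ g ∈ Fintype.piFinset A, ∀ i, (F g i).1 = i.1 + (R + 1) * g i := by
    intro g hg i
    simp only [hF, Fin.ofNat]
    exact Nat.mod_eq_of_lt (hlt g hg i)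
  have hmod : ∀ g ∈ Fintype.piFinset A, ∀ i, (F g i).1 % (R + 1) = i.1 := by
    intro g hg i
    rw [hFv g hg, Nat.add_mul_mod_self_left, Nat.mod_eq_of_lt i.2]
  have hinj : ∀ g ∈ Fintype.piFinset A, Function.Injective (F g) := by
    intro g hg i j hij
    apply Fin.ext
    rw [← hmod g hg i, ← hmod g hg j, hij]
  rw [← hAc, ← Set.ncard_coe_finset]
  refine Set.ncard_le_ncard_of_injOn (fun g => (univ : Finset (Fin (R + 1))).image (F g)) ?_ ?_
    (Set.toFinite _)
  · intro g hg
    rw [mem_coe] at hg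
    rw [Set.mem_setOf_eq, SimpleGraph.isNClique_iff]
    refine ⟨?_, ?_⟩
    · intro u hu w hw hne
      rw [mem_coe, mem_image] at hu hw
      obtain ⟨i, _, rfl⟩ := hu
      obtain ⟨j, _, rfl⟩ := hw
      show (F g i).1 % (R + 1) ≠ (F g j).1 % (R + 1)
      rw [hmod g hg, hmod g hg]
      intro h
      exact hne (by rw [Fin.ext h])
    · rw [card_image_of_injective _ (hinj g hg), card_univ, Fintype.card_fin]
  · intro g hg g' hg' h
    rw [mem_coe] at hg hg'
    funext i
    have h1 : F g i ∈ (univ : Finset (Fin (R + 1))).image (F g') := by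
      have : F g i ∈ (univ : Finset (Fin (R + 1))).image (F g) := mem_image.2 ⟨i, mem_univ _, rfl⟩
      have h' : (univ : Finset (Fin (R + 1))).image (F g)
        = (univ : Finset (Fin (R + 1))).image (F g') := h
      rwa [h'] at this
    rw [mem_image] at h1
    obtain ⟨j, _, hj⟩ := h1
    have h2 : j = i := by
      apply Fin.ext
      rw [← hmod g' hg' j, ← hmod g hg i, hj]
    subst h2
    have h3 := congrArg Fin.val hj
    rw [hFv g' hg', hFv g hg] at h3
    have h4 : (R + 1) * g j = (R + 1) * g' j := by omega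
    exact Nat.eq_of_mul_eq_mul_left (by omega) h4

/-- The balanced product for `(q + 1) a + r`. -/
lemma bal_val (q r a : ℕ) (hr : r < q) : bal q (q * a + r) = a ^ (q - r) * (a + 1) ^ r := by
  unfold bal
  have h1 : (q * a + r) / q = a := by
    rw [Nat.mul_add_div (by omega), Nat.div_eq_of_lt hr, add_zero]
  have h2 : (q * a + r) % q = r := by
    rw [Nat.mul_add_mod, Nat.mod_eq_of_lt hr]
  rw [h1, h2]

lemma upper (p r a : ℕ) (hr : r ≤ p + 1) {m : ℕ} (H : SimpleGraph (Fin m))
    (hm : m = (p + 4) * a + r) (hcf : H.CliqueFree (p + 5)) :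
    {s : Finset (Fin m) | H.IsNClique (p + 4) s}.ncard ≤ a ^ (p + 4 - r) * (a + 1) ^ r := by
  classical
  have hCB : CB H (univ : Finset (Fin m)) (p + 3 + 1) := by
    intro S _ hS
    by_contra hlt
    push Not at hlt
    obtain ⟨S', hS', hc'⟩ := exists_subset_card_eq (show p + 5 ≤ S.card by omega)
    exact hcf S' ⟨hS.subset (by
      intro y hy
      exact mem_coe.2 (hS' (mem_coe.1 hy))), hc'⟩
  rw [ncard_eq_kc]
  have h1 := zyk (p + 3) univ hCB
  have h2 := bal_val (p + 4) r a (by omega)
  have h3 : bal (p + 3 + 1) (univ : Finset (Fin m)).card = a ^ (p + 4 - r) * (a + 1) ^ r := by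
    rw [card_univ, Fintype.card_fin, hm]
    exact h2
  exact h1.trans (le_of_eq h3)

end TURh

theorem tur : TURStmt := by
  intro p r a hr ha
  have hcf : (SimpleGraph.turanGraph ((p + 4) * a + r) (p + 4)).CliqueFree (p + 5) :=
    SimpleGraph.turanGraph_cliqueFree (by omega)
  refine ⟨TURh.deg (p + 3) a r, hcf, ?_, ?_⟩
  · apply le_antisymm
    · exact TURh.upper p r a hr _ rfl hcf
    · exact TURh.lower (p + 3) r a (by omega)
  · rw [TURh.bal_val (p + 3) r a (by omega), show p + 4 - r = p + 3 - r + 1 by omega]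
    ring

end Pool.KQ
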